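import Pool.Agent.W527.PC.Stm

/-! Project PC (MP_7de521_nt): the choice of the order of the five integers. -/

namespace Pool.Agent.W177.PC

open Pool.Agent.W527.PC Pool.Agent.W527.CL

noncomputable section

/-- The units of `ℤ_[p]` which are `1` modulo `p ^ n`. -/
def Sub (p : ℕ) [Fact p.Prime] (n : ℕ) : Subgroup ℤ_[p]ˣ :=
  (Units.map (PadicInt.toZModPow (p := p) n : ℤ_[p] →* ZMod (p ^ n))).ker

theorem mem_Sub (p : ℕ) [Fact p.Prime] (n : ℕ) (x : ℤ_[p]ˣ) :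
    x ∈ Sub p n ↔ ‖(x : ℤ_[p]) - 1‖ ≤ (p : ℝ) ^ (-(n : ℤ)) := by
  rw [PadicInt.norm_le_pow_iff_mem_span_pow, ← PadicInt.ker_toZModPow, RingHom.mem_ker, map_sub,
    map_one, sub_eq_zero]
  unfold Sub
  rw [MonoidHom.mem_ker, Units.ext_iff]
  simp

theorem Sub_mono (p : ℕ) [Fact p.Prime] {n m : ℕ} (h : n ≤ m) {x : ℤ_[p]ˣ} (hx : x ∈ Sub p m) :
    x ∈ Sub p n := by
  rw [mem_Sub] at hx ⊢
  refine hx.trans ?_
  have hp : (1 : ℝ) ≤ p := by
    exact_mod_cast (Fact.out : p.Prime).one_lt.le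
  exact zpow_le_zpow_right₀ hp (by omega)

section

variable {K : Type} [Field K] [NumberField K] {D : FieldData K} {p : ℕ} [Fact p.Prime]
  (P : PData D p)

/-- The unit `r_k + n_j`. -/
def w (k j : Fin 5) : ℤ_[p]ˣ := (P.unit k j).unit

theorem w_val (k j : Fin 5) : (w P k j : ℤ_[p]) = P.r k + ((n5 j : ℤ) : ℤ_[p]) := rfl

theorem map_bu (φ : K →+* ℚ_[p]) (π : Equiv.Perm (Fin 5))
    (hπ : ∀ k, φ (D.b k) = ((P.r (π k) : ℤ_[p]) : ℚ_[p])) (k j : Fin 5) :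
    Units.map (φ : K →* ℚ_[p]) (bu D k j) =
      Units.map ((PadicInt.Coe.ringHom : ℤ_[p] →+* ℚ_[p]) : ℤ_[p] →* ℚ_[p]) (w P (π k) j) := by
  ext
  have h1 : ((Units.map (φ : K →* ℚ_[p]) (bu D k j) : ℚ_[p]ˣ) : ℚ_[p]) =
      φ (D.b k + (n5 j : K)) := rfl
  have h2 : ((Units.map ((PadicInt.Coe.ringHom : ℤ_[p] →+* ℚ_[p]) : ℤ_[p] →* ℚ_[p])
      (w P (π k) j) : ℚ_[p]ˣ) : ℚ_[p]) = ((P.r (π k) + ((n5 j : ℤ) : ℤ_[p]) : ℤ_[p]) : ℚ_[p]) := rfl
  rw [h1, h2, map_add, hπ, map_intCast]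
  push_cast
  rfl

end

theorem t_CHOICE (h : S_PIG) : S_CHOICE := by
  intro K _ _ D p _ P
  classical
  -- the relations
  have hS : ∀ n : ℕ, ∃ s : Fin 5 → ℤ, (∃ j, ¬ (p : ℤ) ∣ s j) ∧
      ∀ k : Fin 4, (∏ j, (w P k.castSucc j / w P (Fin.last 4) j) ^ s j) ∈ Sub p n := by
    intro n
    obtain ⟨s, h1, h2⟩ := h p P.odd (fun k j => w P k.castSucc j / w P (Fin.last 4) j) n
    exact ⟨s, h1, fun k => (mem_Sub p n _).mpr (h2 k)⟩
  choose S hS1 hS2 using hS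
  -- pigeonhole
  obtain ⟨c0, hc0⟩ := Finite.exists_infinite_fiber
    (fun n : ℕ => (fun j => ((S n j : ℤ) : ZMod p) : Fin 5 → ZMod p))
  have hinf : Set.Infinite ((fun n : ℕ => (fun j => ((S n j : ℤ) : ZMod p) : Fin 5 → ZMod p)) ⁻¹'
      {c0}) := Set.infinite_coe_iff.mp hc0
  obtain ⟨m0, hm0⟩ := hinf.nonempty
  obtain ⟨j0, hj0⟩ := hS1 m0
  refine ⟨Equiv.swap 0 j0, fun j => S m0 (Equiv.swap 0 j0 j), ?_, ?_⟩
  · simpa using hj0
  intro n
  obtain ⟨m, hm, hnm⟩ := hinf.exists_gt n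
  set σ : Equiv.Perm (Fin 5) := Equiv.swap 0 j0 with hσ
  refine ⟨fun j => S m (σ j), ?_, ?_⟩
  · intro j
    have e1 : ((S m (σ j) : ℤ) : ZMod p) = c0 (σ j) := congrFun hm (σ j)
    have e2 : ((S m0 (σ j) : ℤ) : ZMod p) = c0 (σ j) := congrFun hm0 (σ j)
    rw [← ZMod.intCast_zmod_eq_zero_iff_dvd]
    push_cast
    rw [e1, e2, sub_self]
  · intro φ
    obtain ⟨π, hπ⟩ := P.emb φ
    have hW : ∀ k : Fin 5, (∏ j, (w P k j / w P (Fin.last 4) j) ^ S m j) ∈ Sub p n := by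
      intro k
      refine Fin.lastCases ?_ (fun k => ?_) k
      · simp
      · exact Sub_mono p hnm.le (hS2 m k)
    have hV : ∀ i : Fin 4, (∏ j, (w P (π i.castSucc) (σ j) / w P (π (Fin.last 4)) (σ j)) ^
        S m (σ j)) ∈ Sub p n := by
      intro i
      have e1 : (∏ j, (w P (π i.castSucc) (σ j) / w P (π (Fin.last 4)) (σ j)) ^ S m (σ j)) =
          ∏ j, (w P (π i.castSucc) j / w P (π (Fin.last 4)) j) ^ S m j :=
        Equiv.prod_comp σ (fun j => (w P (π i.castSucc) j / w P (π (Fin.last 4)) j) ^ S m j)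
      have e2 : (∏ j, (w P (π i.castSucc) j / w P (π (Fin.last 4)) j) ^ S m j) =
          (∏ j, (w P (π i.castSucc) j / w P (Fin.last 4) j) ^ S m j) /
            (∏ j, (w P (π (Fin.last 4)) j / w P (Fin.last 4) j) ^ S m j) := by
        rw [← Finset.prod_div_distrib]
        refine Finset.prod_congr rfl fun j _ => ?_
        rw [← div_zpow]
        congr 1
        rw [div_div_div_cancel_right]
      rw [e1, e2]
      exact div_mem (hW _) (hW _)
    -- the image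
    have key : Units.map (φ : K →* ℚ_[p]) (G D σ (tens fun j => S m (σ j))) =
        Units.map ((PadicInt.Coe.ringHom : ℤ_[p] →+* ℚ_[p]) : ℤ_[p] →* ℚ_[p])
          (∏ i : Fin 4, (∏ j, (w P (π i.castSucc) (σ j) / w P (π (Fin.last 4)) (σ j)) ^
            S m (σ j)) ^ S m (σ i.castSucc)) := by
      unfold G
      rw [map_prod, map_prod]
      refine Finset.prod_congr rfl fun i _ => ?_
      rw [map_prod, map_zpow, map_prod, ← Finset.prod_zpow]
      refine Finset.prod_congr rfl fun j _ => ?_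
      unfold g tens
      rw [map_zpow, map_zpow, map_div, map_div, map_bu P φ π hπ, map_bu P φ π hπ, ← zpow_mul,
        mul_comm (S m (σ i.castSucc))]
    have hmem : (∏ i : Fin 4, (∏ j, (w P (π i.castSucc) (σ j) / w P (π (Fin.last 4)) (σ j)) ^
            S m (σ j)) ^ S m (σ i.castSucc)) ∈ Sub p n :=
      Subgroup.prod_mem _ fun i _ => Subgroup.zpow_mem _ (hV i) _
    rw [mem_Sub] at hmem
    have e3 := congrArg (fun x : ℚ_[p]ˣ => (x : ℚ_[p])) key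
    have e4 : φ ((G D σ (tens fun j => S m (σ j)) : Kˣ) : K) =
        (((∏ i : Fin 4, (∏ j, (w P (π i.castSucc) (σ j) / w P (π (Fin.last 4)) (σ j)) ^
            S m (σ j)) ^ S m (σ i.castSucc) : ℤ_[p]ˣ) : ℤ_[p]) : ℚ_[p]) := e3
    rw [e4]
    have e5 : ∀ z : ℤ_[p], ‖(z : ℚ_[p]) - 1‖ = ‖z - 1‖ := by
      intro z
      rw [PadicInt.norm_def]
      push_cast
      rfl
    rw [e5]
    exact hmem

end

end Pool.Agent.W177.PC
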